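import Mathlib

/-!
# Van Kampen diagrams over the Heisenberg presentation, as gluings of polygons on the sphere

A disk diagram with boundary word `w ≠ []` over
`⟨x, y, z | [x,y]z⁻¹, [x,z], [y,z]⟩` is the same thing as a gluing of polygons, one for each
face (labelled by a relator or the inverse of a relator) and one outer polygon (labelled by the
inverse word of `w`, since it is read from the other side), along their sides in pairs of sides
with mutually inverse letters, such that the result is connected and is a sphere
(Euler characteristic 2).
-/

open Filter Topology BigOperators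
open scoped ENNReal

namespace Pool.Agent.W2helper47.VK

/-- The three generators of the presentation. -/
inductive Gen
  | x
  | y
  | z
  deriving DecidableEq

/-- A letter: a generator with a sign (`true` for the generator, `false` for its inverse). -/
abbrev Letter : Type := Gen × Bool

/-- Words in the letters. -/
abbrev Word : Type := List Letter

/-- The formal inverse of a letter. -/
def inv (l : Letter) : Letter := (l.1, !l.2)

/-- `[x,y]z⁻¹ = x y x⁻¹ y⁻¹ z⁻¹`. -/
def rxy : Word :=
  [(Gen.x, true), (Gen.y, true), (Gen.x, false), (Gen.y, false), (Gen.z, false)]

/-- `[x,z] = x z x⁻¹ z⁻¹`. -/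
def rxz : Word := [(Gen.x, true), (Gen.z, true), (Gen.x, false), (Gen.z, false)]

/-- `[y,z] = y z y⁻¹ z⁻¹`. -/
def ryz : Word := [(Gen.y, true), (Gen.z, true), (Gen.y, false), (Gen.z, false)]

/-- The relators and their inverses. -/
def relators : Set Word :=
  {rxy, rxz, ryz, FreeGroup.invRev rxy, FreeGroup.invRev rxz, FreeGroup.invRev ryz}

/-- The words written around the polygons: `rel f` on the face `f` (`some f`), and `w⁻¹` on the
outer polygon (`none`). -/
def polyWord (w : Word) {F : Type} (rel : F → Word) : Option F → Word
  | none => FreeGroup.invRev w
  | some f => rel f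

/-- The sides of all polygons (the outer one included). -/
abbrev Side (w : Word) {F : Type} (rel : F → Word) : Type :=
  Σ o : Option F, Fin (polyWord w rel o).length

/-- The letter on a side. -/
def lab (w : Word) {F : Type} (rel : F → Word) (d : Side w rel) : Letter :=
  (polyWord w rel d.1).get d.2

/-- The next side of the same polygon (cyclically). -/
def next (w : Word) {F : Type} (rel : F → Word) : Equiv.Perm (Side w rel) :=
  Equiv.sigmaCongrRight fun o => finRotate (polyWord w rel o).length

/-- Polygons glued along their sides: every side is glued to exactly one other side, carrying the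
inverse letter (so, never to itself), and the result is connected. -/
structure Gluing (w : Word) where
  /-- the faces -/
  F : Type
  /-- there are finitely many faces -/
  finF : Fintype F
  /-- the word around a face -/
  rel : F → Word
  /-- it is a relator or the inverse of a relator -/
  rel_mem : ∀ f, rel f ∈ relators
  /-- the side to which a side is glued -/
  glue : Equiv.Perm (Side w rel)
  /-- gluing is symmetric -/
  glue_glue : ∀ d, glue (glue d) = d
  /-- glued sides carry inverse letters -/
  lab_glue : ∀ d, lab w rel (glue d) = inv (lab w rel d)
  /-- connectedness -/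
  connected : ∀ S : Set (Side w rel), S.Nonempty →
    (∀ d ∈ S, glue d ∈ S ∧ next w rel d ∈ S) → S = Set.univ

attribute [instance] Gluing.finF

namespace Gluing

variable {w : Word} (D : Gluing w)

/-- The rotation about the initial vertex of a side: `next ∘ glue`. Its cycles are the vertices. -/
def rot : Equiv.Perm (Side w D.rel) := D.glue.trans (next w D.rel)

/-- The number of vertices. -/
noncomputable def numV : ℕ := Nat.card (Quotient (Equiv.Perm.SameCycle.setoid D.rot))

end Gluing

/-- A van Kampen diagram with boundary word `w`: a connected gluing whose Euler characteristic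
`V - E + (number of faces + 1)` is `2`; the number of sides is `2 E`. -/
structure Diagram (w : Word) extends Gluing w where
  /-- the surface is the sphere -/
  euler : 2 * (toGluing.numV + (Fintype.card F + 1)) = Fintype.card (Side w rel) + 4

namespace Diagram

variable {w : Word} (D : Diagram w)

/-- `m(f,f')`: the number of edges shared by the faces `f` and `f'`. -/
noncomputable def share (f f' : D.F) : ℕ :=
  Nat.card {d : Side w D.rel // d.1 = some f ∧ (D.glue d).1 = some f'}

/-- `b(f)`: the number of sides of `f` that lie on the boundary of the diagram. -/
noncomputable def bdry (f : D.F) : ℕ :=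
  Nat.card {d : Side w D.rel // d.1 = some f ∧ (D.glue d).1 = none}

/-- The energy `ℰ(g)`: the sum over unordered pairs of distinct faces is half of the sum over
ordered pairs, and the terms with `f = f'` vanish. -/
noncomputable def energy (g : D.F → ℝ) : ℝ :=
  (∑ f, ∑ f', (D.share f f' : ℝ) * (g f - g f') ^ 2) / 2 + ∑ f, (D.bdry f : ℝ) * g f ^ 2

/-- The weighted mass `∑ |∂f| g(f)²`. -/
noncomputable def mass (g : D.F → ℝ) : ℝ := ∑ f, ((D.rel f).length : ℝ) * g f ^ 2

/-- `μ₁(Δ)`, which is `+∞` if there are no faces. -/
noncomputable def mu : ℝ≥0∞ :=
  ⨅ (g : D.F → ℝ) (_ : g ≠ 0), ENNReal.ofReal (D.energy g / D.mass g)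

/-- Minimal diagrams (with nonempty boundary word). -/
def IsMinimal : Prop :=
  w ≠ [] ∧ FreeGroup.IsCyclicallyReduced w ∧
    ∀ D' : Diagram w, Fintype.card D.F ≤ Fintype.card D'.F

end Diagram

/-- The face-dual spectral Dehn function `Λ*(n)`. -/
noncomputable def Lam (n : ℕ) : ℝ≥0∞ :=
  ⨅ (w : Word) (D : Diagram w) (_ : D.IsMinimal) (_ : w.length ≤ n), D.mu

end Pool.Agent.W2helper47.VK
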