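import Mathlib
import Pool.Agent.W2helper47.VK.Defs

/-!
# Statements of the pieces (squad of MP_442c46_al, owner helper47)

Each piece: a file `Pool/Agent/W2<seat>/VK/<Piece>.lean` with
`theorem Pool.Agent.W2helper47.VK.<Piece>_proof : <Piece>` (or with the hypotheses stated).
-/

open Filter Topology BigOperators
open scoped ENNReal

namespace Pool.Agent.W2helper47.VK

/-!
## Piece A (abstract counting and potentials), about 150 lines

Proof. Let `U` be the space of functions on the quotient (`= ν`-invariant functions `u` on `D`,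
`ν = φ ∘ α`; so `u (φ (α d)) = u d`, hence `u (φ d) = u (α d)`), `S = P → ℝ`, and
`T : U × S → (D → ℝ)`, `T (u,s) d = (u (α d) - u d) + (s (p d) - s (p (α d)))`.
All values are in `C = {c | c ∘ α = -c}`.
(1) Orthogonality: `∑_d (u (α d) - u d) * (s (p d) - s (p (α d))) = 0`, because
`∑_d (u (α d) - u d) s (p d) = ∑_d (u (φ d) s (p (φ d)) - u d s (p d)) = 0`, and the other half
follows by `d ↦ α d`.
(2) So if `T (u,s) = 0` then (take the inner product of `T(u,s)=0` with each summand) both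
summands vanish; then `u` is invariant under `α` and `φ`, so constant (`conn` for
`{d | u d = u d0}`), and `s ∘ p` is constant too, so `s` is constant (`p` surjective). Hence
`(u,s) ↦ (u d0, s (p d0))` is injective on `ker T`, `finrank (ker T) ≤ 2`, and
`V + |P| = finrank (range T) + finrank (ker T) ≤ finrank (range T) + 2`.
(3) `2 * finrank C ≤ |D|`: `C × C → (D → ℝ)`, `(f,g) ↦ f + σ g` is injective (apply `α`: `f`
antisymmetric, `σ g` symmetric, so both vanish; `σ ≠ 0`). With `range T ≤ C` this gives the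
inequality, and in the case of equality `range T = C`.
(4) In the equality case write `c = δu + ∂s`. For each `o : P` the sum over the fibre of `δu` is
`∑_{p d = o} (u (φ d) - u d) = 0`, so `∑_{p d = o} (s (p d) - s (p (α d))) = 0`; multiply by `s o`
and sum over `o`: `∑_d s (p d) (s (p d) - s (p (α d))) = 0`, symmetrise by `α`:
`∑_d (s (p d) - s (p (α d)))² = 0`. So `c d = u (α d) - u d = u (φ d) - u d`.
-/
def PieceA : Prop :=
  ∀ (D P : Type) (_ : Fintype D) (_ : Fintype P) (_ : DecidableEq P) (_ : Nonempty D)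
    (φ α : Equiv.Perm D) (p : D → P) (σ : D → ℝ),
    Function.Surjective p → (∀ d, p (φ d) = p d) → (∀ d, α (α d) = d) →
    (∀ d, σ (α d) = - σ d) → (∀ d, σ d ≠ 0) →
    (∀ S : Set D, S.Nonempty → (∀ d ∈ S, α d ∈ S ∧ φ d ∈ S) → S = Set.univ) →
    2 * (Nat.card (Quotient (Equiv.Perm.SameCycle.setoid (α.trans φ))) + Fintype.card P)
        ≤ Fintype.card D + 4 ∧
    (2 * (Nat.card (Quotient (Equiv.Perm.SameCycle.setoid (α.trans φ))) + Fintype.card P)
        = Fintype.card D + 4 →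
      ∀ c : D → ℝ, (∀ d, c (α d) = - c d) →
        (∀ o : P, ∑ d ∈ Finset.univ.filter (fun d => p d = o), c d = 0) →
        ∃ u : D → ℝ, ∀ d, u (φ d) = u d + c d ∧ u (α d) = u (φ d))

/-- Potentials on a diagram (follows from `PieceA`; owner). -/
def Pot : Prop :=
  ∀ (w : Word) (D : Diagram w), w ≠ [] → ∀ c : Side w D.rel → ℝ,
    (∀ d, c (D.glue d) = - c d) → (∀ o, ∑ i, c ⟨o, i⟩ = 0) →
    ∃ u : Side w D.rel → ℝ, ∀ d, u (next w D.rel d) = u d + c d ∧
      u (D.glue d) = u (next w D.rel d)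

/-- Euler's inequality for any connected gluing (follows from `PieceA`; owner). -/
def EulerLe : Prop :=
  ∀ (w : Word) (D : Gluing w), w ≠ [] →
    2 * (D.numV + (Fintype.card D.F + 1)) ≤ Fintype.card (Side w D.rel) + 4

/-- The boundary words `x²ⁿ yⁿ x⁻ⁿ y⁻²ⁿ x⁻ⁿ yⁿ`, of length `8n`. -/
def bw (n : ℕ) : Word :=
  List.replicate (2 * n) (Gen.x, true) ++ (List.replicate n (Gen.y, true) ++
  (List.replicate n (Gen.x, false) ++ (List.replicate (2 * n) (Gen.y, false) ++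
  (List.replicate n (Gen.x, false) ++ List.replicate n (Gen.y, true)))))

/-!
## Piece B (`Pot → AreaLower`), about 200 lines

Proof. Let `D : Diagram (bw n)`, `N = card D.F`. Let `cx (l) = ±1` if `l = (Gen.x, ±)`, else `0`;
`cy` likewise. They are antisymmetric under `inv`, and their sums over every `rel f` (six cases)
and over `invRev (bw n)` vanish. `Pot` gives `a b : Side → ℝ` with
`a (next d) = a d + cx (lab d)`, `a (glue d) = a (next d)`, same for `b`, `cy`. Add constants so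
that at the first side of the outer polygon `a = -n`, `b = 0`.
Put `Φ d = ε (lab d) * h (lab d).1 (a d) (b d)`, `ε = ±1` the sign, with
`h x a b = -(b² - b)/2`, `h y a b = (a² - a)/2 + |a|`, `h z a b = a + b`.
* `Φ (glue d) = -Φ d` (for an `x`-side `b (glue d) = b (next d) = b d`; for a `y`-side
  `a (glue d) = a d`; for a `z`-side both are unchanged). So `∑_d Φ d = 0`.
* The sum of `Φ` over a face lies in `[-1, 1]`: starting at `(a,b)` the face `rxy` gives
  `h x b - h x (b+1) + h y (a+1) - h y a - (a+b) = |a+1| - |a|`, `rxz` and `ryz` give `1`, and the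
  inverse words give the negatives.
* The outer polygon `invRev (bw n) = y⁻ⁿ xⁿ y²ⁿ xⁿ y⁻ⁿ x⁻²ⁿ` started at `(-n, 0)` gives
  `-n((n²+n)/2+n) - n(n²+n)/2 + 0 - n(n²-n)/2 - n((n²-n)/2+n) - 0 = -(2n³+2n²)`.
Hence `2n³+2n² = |outer sum| = |∑_f (face sum)| ≤ N`.
Recommended tool: `val : Word → ℝ → ℝ → ℝ`, `val [] a b = 0`,
`val (l :: L) a b = ε l * h l.1 a b + val L (a + cx l) (b + cy l)`, a lemma for `++`, a lemma for
`List.replicate`, and a lemma that `∑ i, Φ ⟨o, i⟩ = val (polyWord _ _ o) (a ⟨o,0⟩) (b ⟨o,0⟩)`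
from the recursion along `next` (`finRotate`).
-/
def AreaLower : Prop :=
  ∀ n : ℕ, 1 ≤ n → ∀ D : Diagram (bw n), 2 * n ^ 3 + 2 * n ^ 2 ≤ Fintype.card D.F

/-- Extension by `0` to the outer polygon. -/
def ext {F : Type} (h : F → ℕ) : Option F → ℕ
  | none => 0
  | some f => h f

/-!
## Piece D1, about 100 lines

Proof. If `p, q : ℕ` differ by at most `1` then
`(log (1+p) - log (1+q))² ≤ 4 / (1+p)²` (since `|log s - log t| ≤ |s-t| / min s t`, and
`1 + p ≤ 2 (1 + min p q)`). With `g f = log (1 + h f) / L` (which extends by `0` to the outer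
polygon, `log 1 = 0`): each term of the energy is a sum over the sides `d` of a face `f`:
`∑_{f'} share f f' (g f - g f')²` is the sum of the jumps squared over the sides `d` of `f` with
`(glue d).1 ≠ none`, and `bdry f * g f ^ 2` the same for the other sides. All relators have
length `≤ 5`, so for each `f`
`(∑_{f'} share f f' (g f - g f')²) / 2 + bdry f * g f ^ 2 ≤ 5 * (4 / (1 + h f)²) / L²`.
-/
def EnergyBound : Prop :=
  ∀ (w : Word) (D : Diagram w) (h : D.F → ℕ) (L : ℝ), 0 < L →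
    (∀ d : Side w D.rel, ext h d.1 ≤ ext h (D.glue d).1 + 1) →
    D.energy (fun f => Real.log (1 + (h f : ℝ)) / L)
      ≤ 20 / L ^ 2 * ∑ f, 1 / (1 + (h f : ℝ)) ^ 2

/-- The height of the face `(i,k,T)` of the explicit diagram. -/
def hh (n i k T : ℕ) : ℕ :=
  if i = 0 then k - (k - (T - 1))
  else if i + 1 = n then n - 1 - k - (T - (k + 2 * i + 3))
  else n - 1 - (k - (T - 1)) - (T - (k + 2 * i + 3))

/-!
## Piece D2, about 150 lines (all subtractions above are truncated)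

Proof of `SumBound`. Write `S(i,k)` for the sum over `T`. Use
`∑_{j ∈ [m, M)} 1/(j+1)² ≤ 2/(m+1)`, `∑_{j<n} 1/(j+1) ≤ 1 + log n ≤ 2 log n` (`n ≥ 3`).
* `i = 0`: `hh = min k (T-1)`: the terms `T ≤ k+1` give `≤ 3`, the others (`n - k + 1` of them)
  `1/(1+k)²` each: `S ≤ 3 + (n+1)/(1+k)²`.
* `0 < i < n-1`: `T ≤ k`: `hh = n-1-(k-(T-1))`, sum `≤ 1/(n-k)² + 2/(n-k)`;
  `k+1 ≤ T ≤ k+2i+3`: `hh = n-1`, sum `≤ (2i+3)/n²`; `T = k+2i+3+a`, `a ≤ n-1-k`: `hh = n-1-a`,
  sum `≤ 2/(k+1)`.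
* `i = n-1`: `T ≤ k+2i+3 = k+2n+1`: `hh = n-1-k`, sum `≤ (k+2n+2)/(n-k)²`;
  `T = k+2i+3+a`, `a ≤ n-1-k`: `hh = n-1-k-a`, sum `≤ 2`.
Now sum over `k < n` and `i < n`: total `≤ C n log n`.
Proof of `MassBound`: for `1 ≤ i ≤ n-2` and `k+1 ≤ T ≤ k+2i+3` one has `hh = n-1`, so the term is
`4`; there are `2i+3` such `T`, so the sum is `≥ ∑_{i=1}^{n-2} 4 n (2i+3) ≥ n³/3`.
-/
def SumBound : Prop :=
  ∃ C : ℝ, 0 < C ∧ ∀ n : ℕ, 3 ≤ n →
    ∑ i ∈ Finset.range n, ∑ k ∈ Finset.range n, ∑ T ∈ Finset.range (n + 2 * i + 3),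
      1 / (1 + (hh n i k T : ℝ)) ^ 2 ≤ C * n * Real.log n

/-- See the comment above. -/
def MassBound : Prop :=
  ∀ n : ℕ, 3 ≤ n → (n : ℝ) ^ 3 / 3 ≤
    ∑ i ∈ Finset.range n, ∑ k ∈ Finset.range n, ∑ T ∈ Finset.range (n + 2 * i + 3),
      4 * (Real.log (1 + (hh n i k T : ℝ)) / Real.log n) ^ 2

/-- The faces of the explicit diagram. -/
abbrev FF (n : ℕ) : Type := Σ i : Fin n, Fin n × Fin (n + 2 * (i : ℕ) + 3)

/-- The height on `FF n`. -/
def hF (n : ℕ) (f : FF n) : ℕ := hh n f.1 f.2.1 f.2.2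

/-- The explicit diagram (owner). -/
def Explicit : Prop :=
  ∀ n : ℕ, 3 ≤ n → ∃ D : Diagram (bw n), ∃ e : D.F ≃ FF n,
    ∀ d : Side (bw n) D.rel,
      ext (fun f => hF n (e f)) d.1 ≤ ext (fun f => hF n (e f)) (D.glue d).1 + 1

/-!
## Piece E (`AreaLower → Explicit → EnergyBound → SumBound → MassBound → GoodFamily`, then
`GoodFamily → Final`), about 200 lines

`GoodFamily`: for `n ≥ 3` take `D, e` from `Explicit`, `h = hF n ∘ e`,
`g f = log (1 + h f) / log n`. `card D.F = card (FF n) = ∑_{i<n} n (n+2i+3) = 2n³+2n²`, so `D` is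
minimal by `AreaLower` (`bw n ≠ []` is cyclically reduced). Reindex the sums over `D.F` by `e` and
`Fintype.sum_sigma`, `Fintype.sum_prod_type`, `Finset.sum_range`. All relators have length `≥ 4`, so
`mass g ≥ n³/3 > 0` (so `g ≠ 0`), and
`energy g ≤ 20/(log n)² * C n log n = 20 C n / log n`, the quotient is `≤ 60 C/(n² log n)`.
`Final`: for `N ≥ 24` let `n = N / 8 ≥ 3`; `(bw n).length = 8 n ≤ N`, so
`Lam N ≤ ENNReal.ofReal (C/(n² log n))`, `n ≥ N/16`, `log n ≥ (log N)/4` (as `n ≥ N^{1/4}`, i.e.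
`n^4 ≥ N`: `n ≥ 3` and `N < 8(n+1) ≤ 8 (4n/3) < 11 n ≤ 27 n ≤ n^4`); and for `2 ≤ N < 24`
nothing is claimed. Then `N² Lam N ≤ C'/log N → 0`, which contradicts
`c/N² ≤ Lam N` for all large `N`.
-/
def GoodFamily : Prop :=
  ∃ C : ℝ, 0 < C ∧ ∀ n : ℕ, 3 ≤ n → ∃ D : Diagram (bw n), D.IsMinimal ∧
    Fintype.card D.F = 2 * n ^ 3 + 2 * n ^ 2 ∧
    D.mu ≤ ENNReal.ofReal (C / ((n : ℝ) ^ 2 * Real.log n))

/-- The final statement. -/
def Final : Prop :=
  (∃ C : ℝ, 0 < C ∧ ∀ n : ℕ, 24 ≤ n →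
      Lam n ≤ ENNReal.ofReal (C / ((n : ℝ) ^ 2 * Real.log n))) ∧
  Tendsto (fun n : ℕ => (n : ℝ≥0∞) ^ 2 * Lam n) atTop (𝓝 0) ∧
  liminf (fun n : ℕ => (n : ℝ≥0∞) ^ 2 * Lam n) atTop = 0 ∧
  ¬ ∃ c C : ℝ, 0 < c ∧ c ≤ C ∧ ∀ᶠ n : ℕ in atTop,
      ENNReal.ofReal (c / (n : ℝ) ^ 2) ≤ Lam n ∧ Lam n ≤ ENNReal.ofReal (C / (n : ℝ) ^ 2)

end Pool.Agent.W2helper47.VK
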