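import Mathlib
import Pool.Agent.W2helper47.VK.Stm

/-!
# `PieceA` implies `Pot` and `EulerLe`
-/

open BigOperators

namespace Pool.Agent.W2helper47.VK

theorem relators_ne_nil {r : Word} (hr : r ∈ relators) : r ≠ [] := by
  unfold relators at hr
  simp only [Set.mem_insert_iff, Set.mem_singleton_iff] at hr
  rcases hr with h | h | h | h | h | h <;> subst h <;> decide

theorem fst_surjective {w : Word} (hw : w ≠ []) (D : Gluing w) :
    Function.Surjective (fun d : Side w D.rel => d.1) := by
  intro o
  have h : 0 < (polyWord w D.rel o).length := by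
    cases o with
    | none =>
      change 0 < (FreeGroup.invRev w).length
      rw [FreeGroup.invRev_length]
      exact List.length_pos_iff.mpr hw
    | some f =>
      exact List.length_pos_iff.mpr (relators_ne_nil (D.rel_mem f))
  exact ⟨⟨o, ⟨0, h⟩⟩, rfl⟩

/-- The sign of a side. -/
noncomputable def sgn {w : Word} (D : Gluing w) (d : Side w D.rel) : ℝ :=
  if (lab w D.rel d).2 then 1 else -1

theorem fibre_sum {w : Word} (D : Gluing w) (c : Side w D.rel → ℝ) [DecidableEq (Option D.F)]
    (o : Option D.F) :
    ∑ d ∈ Finset.univ.filter (fun d : Side w D.rel => d.1 = o), c d = ∑ i, c ⟨o, i⟩ := by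
  symm
  apply Finset.sum_bij (fun (i : Fin (polyWord w D.rel o).length) _ => (⟨o, i⟩ : Side w D.rel))
  · intro i _
    simp
  · intro i _ j _ h
    simpa using h
  · rintro ⟨o', i⟩ h
    simp only [Finset.mem_filter, Finset.mem_univ, true_and] at h
    subst h
    exact ⟨i, Finset.mem_univ _, rfl⟩
  · intro i _
    rfl

theorem apply_A (hA : PieceA) (w : Word) (hw : w ≠ []) (D : Gluing w) :
    2 * (D.numV + (Fintype.card D.F + 1)) ≤ Fintype.card (Side w D.rel) + 4 ∧
    (2 * (D.numV + (Fintype.card D.F + 1)) = Fintype.card (Side w D.rel) + 4 →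
      ∀ c : Side w D.rel → ℝ, (∀ d, c (D.glue d) = - c d) → (∀ o, ∑ i, c ⟨o, i⟩ = 0) →
        ∃ u : Side w D.rel → ℝ, ∀ d, u (next w D.rel d) = u d + c d ∧
          u (D.glue d) = u (next w D.rel d)) := by
  classical
  have hne : Nonempty (Side w D.rel) := by
    obtain ⟨d, -⟩ := fst_surjective hw D none
    exact ⟨d⟩
  have h := hA (Side w D.rel) (Option D.F) inferInstance inferInstance inferInstance hne
    (next w D.rel) D.glue (fun d => d.1) (sgn D) (fst_surjective hw D)
    (fun d => rfl) D.glue_glue
    (by
      intro d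
      simp only [sgn, D.lab_glue, inv]
      cases (lab w D.rel d).2 <;> simp)
    (by
      intro d
      simp only [sgn]
      split <;> norm_num)
    D.connected
  have hc : Fintype.card (Option D.F) = Fintype.card D.F + 1 := Fintype.card_option
  rw [hc] at h
  refine ⟨h.1, fun he c hc1 hc2 => ?_⟩
  refine h.2 he c hc1 ?_
  intro o
  have := fibre_sum D c o
  rw [← hc2 o, ← this]

theorem pot_of_A (hA : PieceA) : Pot := by
  intro w D hw c h1 h2
  exact (apply_A hA w hw D.toGluing).2 D.euler c h1 h2

theorem eulerLe_of_A (hA : PieceA) : EulerLe := by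
  intro w D hw
  exact (apply_A hA w hw D).1

end Pool.Agent.W2helper47.VK
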