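import Mathlib
import Pool.Agent.W2helper47.VK.Stm

/-!
# The gluing table of the explicit diagram, in coordinates `(i,k,T,s)`

`i < n`: side `s` of the face `(i,k,T)`; `i = n`, `k = T = 0`: side `s` of the outer polygon.
-/

namespace Pool.Agent.W2helper47.VK

/-- Codes of sides. -/
abbrev Code : Type := ℕ × ℕ × ℕ × ℕ

/-- Table, outer polygon. -/
def tabO (n m : ℕ) : Code :=
  if m < n then (m, n - 1, 0, 1)
  else if m < 4 * n - 1 then (n - 1, n - 1, m + 1 - n, 2)
  else if m < 4 * n then (n - 1, n - 1, 3 * n, 3)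
  else if m < 5 * n then (n - 1, 5 * n - 1 - m, 3 * n, 2)
  else if m < 6 * n then (6 * n - 1 - m, 0, n + 2 * (6 * n - 1 - m) + 2, 1)
  else if m < 7 * n then (0, 0, 7 * n + 2 - m, 0)
  else (0, m - 7 * n, 0, 2)

/-- Table, first pentagon of a strand (`T = 0`). -/
def tabB (n i k s : ℕ) : Code :=
  if s = 0 then (i, k, 1, 3)
  else if s = 1 then (if k + 1 < n then (i, k + 1, 0, 3) else (n, 0, 0, i))
  else if s = 2 then (if 1 ≤ i then (i - 1, n - 1, n - k, 2) else (n, 0, 0, 7 * n + k))
  else if s = 3 then (if 1 ≤ k then (i, k - 1, 0, 1) else (i, 0, 2, 0))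
  else (i, k, 1, 0)

/-- Table, last pentagon of a strand (`T = n + 2 i + 2`). -/
def tabA (n i k s : ℕ) : Code :=
  if s = 0 then
    (if 1 ≤ k then (i, k - 1, n + 2 * i + 1, 2)
     else if 1 ≤ i then (i - 1, 0, n + 2 * i, 2) else (n, 0, 0, 6 * n))
  else if s = 1 then (if 1 ≤ k then (i, k - 1, n + 2 * i + 2, 3) else (n, 0, 0, 6 * n - 1 - i))
  else if s = 2 then
    (if i + 1 < n then (i + 1, 0, n + 2 * i + 4 - k, 0) else (n, 0, 0, 5 * n - 1 - k))
  else if s = 3 then
    (if k + 1 < n then (i, k + 1, n + 2 * i + 2, 1)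
     else if i + 1 < n then (i + 1, 0, 2 * i + 4, 0) else (n, 0, 0, 4 * n - 1))
  else (i, k, n + 2 * i + 1, 1)

/-- Table, squares (`1 ≤ T ≤ n + 2 i + 1`). -/
def tabS (n i k T s : ℕ) : Code :=
  if s = 0 then
    (if T = 1 then (i, k, 0, 4)
     else if 1 ≤ k then (i, k - 1, T - 1, 2)
     else if T = 2 then (i, 0, 0, 3)
     else if 1 ≤ i then
       (if T ≤ 2 * i + 1 then (i - 1, n - 1, T + n - 2, 2)
        else if T = 2 * i + 2 then (i - 1, n - 1, n + 2 * i, 3)
        else (i - 1, n + 2 * i + 2 - T, n + 2 * i, 2))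
     else (n, 0, 0, 7 * n + 2 - T))
  else if s = 1 then
    (if T = n + 2 * i + 1 then (i, k, n + 2 * i + 2, 4) else (i, k, T + 1, 3))
  else if s = 2 then
    (if k + 1 < n then (i, k + 1, T + 1, 0)
     else if i + 1 < n then
       (if T ≤ n then (i + 1, n - T, 0, 2) else (i + 1, 0, T + 2 - n, 0))
     else (n, 0, 0, n + T - 1))
  else (if T = 1 then (i, k, 0, 0) else (i, k, T - 1, 1))

/-- The gluing table. -/
def tab (n : ℕ) (q : Code) : Code :=
  if q.1 = n then tabO n q.2.2.2
  else if q.2.2.1 = 0 then tabB n q.1 q.2.1 q.2.2.2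
  else if q.2.2.1 = n + 2 * q.1 + 2 then tabA n q.1 q.2.1 q.2.2.2
  else tabS n q.1 q.2.1 q.2.2.1 q.2.2.2

/-- The codes of sides. -/
def Valid (n : ℕ) (q : Code) : Prop :=
  (q.1 = n ∧ q.2.1 = 0 ∧ q.2.2.1 = 0 ∧ q.2.2.2 < 8 * n) ∨
  (q.1 < n ∧ q.2.1 < n ∧ q.2.2.1 ≤ n + 2 * q.1 + 2 ∧
    (q.2.2.2 < 4 ∨ (q.2.2.2 = 4 ∧ (q.2.2.1 = 0 ∨ q.2.2.1 = n + 2 * q.1 + 2))))

theorem tab_valid (n : ℕ) (hn : 1 ≤ n) (q : Code) (hq : Valid n q) : Valid n (tab n q) := by
  obtain ⟨i, k, T, s⟩ := q
  simp only [Valid] at hq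
  unfold tab
  dsimp only
  split
  · unfold tabO
    repeat' split
    all_goals (dsimp only [Valid]; omega)
  · split
    · unfold tabB
      repeat' split
      all_goals (dsimp only [Valid]; omega)
    · split
      · unfold tabA
        repeat' split
        all_goals (dsimp only [Valid]; omega)
      · unfold tabS
        repeat' split
        all_goals (dsimp only [Valid]; omega)

theorem code_ext {i k T s i' k' T' s' : ℕ} (h1 : i = i') (h2 : k = k') (h3 : T = T')
    (h4 : s = s') : ((i, k, T, s) : Code) = (i', k', T', s') := by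
  subst h1 h2 h3 h4; rfl

theorem tab_tabO (n : ℕ) (hn : 1 ≤ n) (m : ℕ) (hm : m < 8 * n) : tab n (tabO n m) = (n, 0, 0, m) := by
  unfold tabO
  repeat' split
  all_goals
    unfold tab
    dsimp only
    unfold tabO tabB tabA tabS
    simp (decide := true) only [if_true, if_false]
    repeat' split
    all_goals first
      | omega
      | exact code_ext (by omega) (by omega) (by omega) (by omega)

theorem tab_tabB (n : ℕ) (hn : 1 ≤ n) (i k s : ℕ) (hi : i < n) (hk : k < n) (hs : s < 5) :
    tab n (tabB n i k s) = (i, k, 0, s) := by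
  unfold tabB
  repeat' split
  all_goals
    unfold tab
    dsimp only
    unfold tabO tabB tabA tabS
    simp (decide := true) only [if_true, if_false]
    repeat' split
    all_goals first
      | omega
      | exact code_ext (by omega) (by omega) (by omega) (by omega)

theorem tab_tabA (n : ℕ) (hn : 1 ≤ n) (i k s : ℕ) (hi : i < n) (hk : k < n) (hs : s < 5) :
    tab n (tabA n i k s) = (i, k, n + 2 * i + 2, s) := by
  unfold tabA
  repeat' split
  all_goals
    unfold tab
    dsimp only
    unfold tabO tabB tabA tabS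
    simp (decide := true) only [if_true, if_false]
    repeat' split
    all_goals first
      | omega
      | exact code_ext (by omega) (by omega) (by omega) (by omega)

theorem tab_tabS (n : ℕ) (hn : 1 ≤ n) (i k T s : ℕ) (hi : i < n) (hk : k < n) (hT : 1 ≤ T)
    (hT2 : T < n + 2 * i + 2) (hs : s < 4) :
    tab n (tabS n i k T s) = (i, k, T, s) := by
  unfold tabS
  repeat' split
  all_goals
    unfold tab
    dsimp only
    unfold tabO tabB tabA tabS
    simp (decide := true) only [if_true, if_false]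
    repeat' split
    all_goals first
      | omega
      | exact code_ext (by omega) (by omega) (by omega) (by omega)

theorem tab_tab (n : ℕ) (hn : 1 ≤ n) (q : Code) (hq : Valid n q) : tab n (tab n q) = q := by
  obtain ⟨i, k, T, s⟩ := q
  simp only [Valid] at hq
  by_cases h1 : i = n
  · have hk : k = 0 := by omega
    have hT : T = 0 := by omega
    have hs : s < 8 * n := by omega
    subst h1 hk hT
    rw [show tab i (i, 0, 0, s) = tabO i s from by simp [tab]]
    exact tab_tabO i hn s hs
  · by_cases h2 : T = 0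
    · subst h2
      rw [show tab n (i, k, 0, s) = tabB n i k s from by simp [tab, h1]]
      exact tab_tabB n hn i k s (by omega) (by omega) (by omega)
    · by_cases h3 : T = n + 2 * i + 2
      · subst h3
        rw [show tab n (i, k, n + 2 * i + 2, s) = tabA n i k s from by simp [tab, h1]]
        exact tab_tabA n hn i k s (by omega) (by omega) (by omega)
      · rw [show tab n (i, k, T, s) = tabS n i k T s from by simp [tab, h1, h2, h3]]
        exact tab_tabS n hn i k T s (by omega) (by omega) (by omega) (by omega) (by omega)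

end Pool.Agent.W2helper47.VK
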