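import Mathlib
import Pool.Agent.W2helper47.VK.Tab

/-!
# Heights of adjacent faces of the explicit diagram differ by at most one
-/

namespace Pool.Agent.W2helper47.VK

/-- The height, in coordinates (`0` on the outer polygon). -/
def hN (n : ℕ) (q : Code) : ℕ := if q.1 = n then 0 else hh n q.1 q.2.1 q.2.2.1

theorem hN_out (n k T s : ℕ) : hN n (n, k, T, s) = 0 := by
  simp [hN]

theorem hN_in (n i k T s : ℕ) (h : i ≠ n) : hN n (i, k, T, s) = hh n i k T := by
  simp [hN, h]

theorem h_tabO (n : ℕ) (hn : 2 ≤ n) (m : ℕ) (hm : m < 8 * n) : hN n (tabO n m) ≤ 1 := by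
  unfold tabO
  repeat' split
  all_goals
    rw [hN_in _ _ _ _ _ (by omega)]
    unfold hh
    repeat' split
    all_goals omega

theorem h_tabB (n : ℕ) (hn : 2 ≤ n) (i k s : ℕ) (hi : i < n) (hk : k < n) (hs : s < 5) :
    hh n i k 0 ≤ hN n (tabB n i k s) + 1 := by
  unfold tabB
  interval_cases s
  all_goals
    simp (decide := true) only [if_true, if_false]
    repeat' split
  all_goals
    first
      | rw [hN_out]
      | rw [hN_in _ _ _ _ _ (by omega)]
    unfold hh
    repeat' split
    all_goals omega

theorem h_tabA (n : ℕ) (hn : 2 ≤ n) (i k s : ℕ) (hi : i < n) (hk : k < n) (hs : s < 5) :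
    hh n i k (n + 2 * i + 2) ≤ hN n (tabA n i k s) + 1 := by
  unfold tabA
  interval_cases s
  all_goals
    simp (decide := true) only [if_true, if_false]
    repeat' split
  all_goals
    first
      | rw [hN_out]
      | rw [hN_in _ _ _ _ _ (by omega)]
    unfold hh
    repeat' split
    all_goals omega

theorem h_tabS (n : ℕ) (hn : 2 ≤ n) (i k T s : ℕ) (hi : i < n) (hk : k < n) (hT : 1 ≤ T)
    (hT2 : T < n + 2 * i + 2) (hs : s < 4) :
    hh n i k T ≤ hN n (tabS n i k T s) + 1 := by
  unfold tabS
  interval_cases s
  all_goals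
    simp (decide := true) only [if_true, if_false]
    repeat' split
  all_goals
    first
      | rw [hN_out]
      | rw [hN_in _ _ _ _ _ (by omega)]
    unfold hh
    repeat' split
    all_goals omega

theorem h_tab (n : ℕ) (hn : 2 ≤ n) (q : Code) (hq : Valid n q) :
    hN n q ≤ hN n (tab n q) + 1 := by
  obtain ⟨i, k, T, s⟩ := q
  simp only [Valid] at hq
  by_cases h1 : i = n
  · have hk : k = 0 := by omega
    have hT : T = 0 := by omega
    have hs : s < 8 * n := by omega
    subst h1 hk hT
    rw [hN_out]
    omega
  · rw [hN_in _ _ _ _ _ h1]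
    by_cases h2 : T = 0
    · subst h2
      rw [show tab n (i, k, 0, s) = tabB n i k s from by simp [tab, h1]]
      exact h_tabB n hn i k s (by omega) (by omega) (by omega)
    · by_cases h3 : T = n + 2 * i + 2
      · subst h3
        rw [show tab n (i, k, n + 2 * i + 2, s) = tabA n i k s from by simp [tab, h1]]
        exact h_tabA n hn i k s (by omega) (by omega) (by omega)
      · rw [show tab n (i, k, T, s) = tabS n i k T s from by simp [tab, h1, h2, h3]]
        exact h_tabS n hn i k T s (by omega) (by omega) (by omega) (by omega) (by omega)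

end Pool.Agent.W2helper47.VK
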