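import Mathlib
import Pool.Agent.W2helper47.VK.Tab

/-!
# Letters of the explicit diagram, in coordinates
-/

namespace Pool.Agent.W2helper47.VK

/-- Letters of the outer polygon. -/
def labO (n m : ℕ) : Letter :=
  if m < n then (Gen.y, false)
  else if m < 2 * n then (Gen.x, true)
  else if m < 4 * n then (Gen.y, true)
  else if m < 5 * n then (Gen.x, true)
  else if m < 6 * n then (Gen.y, false)
  else (Gen.x, false)

/-- Letters of `z y x y⁻¹ x⁻¹`. -/
def labB (s : ℕ) : Letter :=
  if s = 0 then (Gen.z, true) else if s = 1 then (Gen.y, true)
  else if s = 2 then (Gen.x, true) else if s = 3 then (Gen.y, false) else (Gen.x, false)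

/-- Letters of `x y x⁻¹ y⁻¹ z⁻¹`. -/
def labA (s : ℕ) : Letter :=
  if s = 0 then (Gen.x, true) else if s = 1 then (Gen.y, true)
  else if s = 2 then (Gen.x, false) else if s = 3 then (Gen.y, false) else (Gen.z, false)

/-- Letters of `x z x⁻¹ z⁻¹`. -/
def labX (s : ℕ) : Letter :=
  if s = 0 then (Gen.x, true) else if s = 1 then (Gen.z, true)
  else if s = 2 then (Gen.x, false) else (Gen.z, false)

/-- Letters of `y z y⁻¹ z⁻¹`. -/
def labY (s : ℕ) : Letter :=
  if s = 0 then (Gen.y, true) else if s = 1 then (Gen.z, true)
  else if s = 2 then (Gen.y, false) else (Gen.z, false)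

/-- Letters of the sides. -/
def labN (n : ℕ) (q : Code) : Letter :=
  if q.1 = n then labO n q.2.2.2
  else if q.2.2.1 = 0 then labB q.2.2.2
  else if q.2.2.1 ≤ q.2.1 + 1 then labX q.2.2.2
  else if q.2.2.1 ≤ q.2.1 + 2 * q.1 + 2 then labY q.2.2.2
  else if q.2.2.1 ≤ n + 2 * q.1 + 1 then labX q.2.2.2
  else labA q.2.2.2

theorem labN_out (n k T s : ℕ) : labN n (n, k, T, s) = labO n s := by
  simp [labN]

/-- Letters of the faces. -/
def labI (n i k T s : ℕ) : Letter :=
  if T = 0 then labB s
  else if T ≤ k + 1 then labX s
  else if T ≤ k + 2 * i + 2 then labY s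
  else if T ≤ n + 2 * i + 1 then labX s
  else labA s

theorem labN_in (n i k T s : ℕ) (h : i ≠ n) : labN n (i, k, T, s) = labI n i k T s := by
  simp [labN, labI, h]

theorem lab_tabO (n : ℕ) (hn : 1 ≤ n) (m : ℕ) (hm : m < 8 * n) :
    labN n (tabO n m) = inv (labO n m) := by
  unfold tabO
  repeat' split
  all_goals
    rw [labN_in _ _ _ _ _ (by omega)]
    unfold labI labO labB labA labX labY
    simp (decide := true) only [if_true, if_false]
    repeat' split
    all_goals first
      | omega
      | rfl

theorem lab_tabB (n : ℕ) (hn : 1 ≤ n) (i k s : ℕ) (hi : i < n) (hk : k < n) (hs : s < 5) :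
    labN n (tabB n i k s) = inv (labB s) := by
  unfold tabB
  interval_cases s
  all_goals
    simp (decide := true) only [if_true, if_false]
    repeat' split
  all_goals
    first
      | rw [labN_out]
      | rw [labN_in _ _ _ _ _ (by omega)]
    unfold labB
    try unfold labI labB labA labX labY
    try unfold labO
    simp (decide := true) only [if_true, if_false]
    repeat' split
    all_goals first
      | omega
      | rfl

theorem lab_tabA (n : ℕ) (hn : 1 ≤ n) (i k s : ℕ) (hi : i < n) (hk : k < n) (hs : s < 5) :
    labN n (tabA n i k s) = inv (labA s) := by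
  unfold tabA
  interval_cases s
  all_goals
    simp (decide := true) only [if_true, if_false]
    repeat' split
  all_goals
    first
      | rw [labN_out]
      | rw [labN_in _ _ _ _ _ (by omega)]
    unfold labA
    try unfold labI labB labA labX labY
    try unfold labO
    simp (decide := true) only [if_true, if_false]
    repeat' split
    all_goals first
      | omega
      | rfl

theorem lab_tabS (n : ℕ) (hn : 1 ≤ n) (i k T s : ℕ) (hi : i < n) (hk : k < n) (hT : 1 ≤ T)
    (hT2 : T < n + 2 * i + 2) (hs : s < 4) :
    labN n (tabS n i k T s) =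
      inv (if k + 1 < T ∧ T ≤ k + 2 * i + 2 then labY s else labX s) := by
  unfold tabS
  interval_cases s
  all_goals
    simp (decide := true) only [if_true, if_false]
    repeat' split
  all_goals
    first
      | rw [labN_out]
      | rw [labN_in _ _ _ _ _ (by omega)]
    try unfold labX
    try unfold labY
    try unfold labI labB labA labX labY
    try unfold labO
    simp (decide := true) only [if_true, if_false]
    repeat' split
    all_goals first
      | omega
      | rfl

theorem lab_tab (n : ℕ) (hn : 1 ≤ n) (q : Code) (hq : Valid n q) :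
    labN n (tab n q) = inv (labN n q) := by
  obtain ⟨i, k, T, s⟩ := q
  simp only [Valid] at hq
  by_cases h1 : i = n
  · have hk : k = 0 := by omega
    have hT : T = 0 := by omega
    have hs : s < 8 * n := by omega
    subst h1 hk hT
    rw [show tab i (i, 0, 0, s) = tabO i s from by simp [tab], lab_tabO i hn s hs, labN_out]
  · rw [labN_in _ _ _ _ _ h1]
    by_cases h2 : T = 0
    · subst h2
      rw [show tab n (i, k, 0, s) = tabB n i k s from by simp [tab, h1],
        lab_tabB n hn i k s (by omega) (by omega) (by omega)]
      simp [labI]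
    · by_cases h3 : T = n + 2 * i + 2
      · subst h3
        rw [show tab n (i, k, n + 2 * i + 2, s) = tabA n i k s from by simp [tab, h1],
          lab_tabA n hn i k s (by omega) (by omega) (by omega)]
        unfold labI
        rw [if_neg (by omega), if_neg (by omega), if_neg (by omega), if_neg (by omega)]
      · rw [show tab n (i, k, T, s) = tabS n i k T s from by simp [tab, h1, h2, h3],
          lab_tabS n hn i k T s (by omega) (by omega) (by omega) (by omega) (by omega)]
        unfold labI
        rw [if_neg h2]
        by_cases h4 : T ≤ k + 1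
        · rw [if_pos h4, if_neg (by omega)]
        · rw [if_neg h4]
          by_cases h5 : T ≤ k + 2 * i + 2
          · rw [if_pos h5, if_pos (by omega)]
          · rw [if_neg h5, if_pos (show T ≤ n + 2 * i + 1 by omega), if_neg (by omega)]

end Pool.Agent.W2helper47.VK
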