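import Mathlib
import Pool.Agent.W2helper47.VK.Tab

/-!
# Vertices of the explicit diagram, in coordinates

The vertex at the beginning of a side is recorded as `(a, b, i, k)`, which stands for the element
with abelian coordinates `(a,b)` at the level `n i + k` (with `k < n`).
-/

namespace Pool.Agent.W2helper47.VK

/-- Vertices, coded. -/
abbrev Vt : Type := ℤ × ℤ × ℕ × ℕ

theorem vt_ext {a b a' b' : ℤ} {i k i' k' : ℕ} (h1 : a = a') (h2 : b = b') (h3 : i = i')
    (h4 : k = k') : ((a, b, i, k) : Vt) = (a', b', i', k') := by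
  subst h1 h2 h3 h4; rfl

/-- Outer polygon (`m ≤ 8 n`). -/
def orgO (n m : ℕ) : Vt :=
  if m < n then (-n, -m, m, 0)
  else if m < 2 * n then (m - 2 * n, -n, n, 0)
  else if m < 4 * n then (0, m - 3 * n, n, 0)
  else if m < 5 * n then (m - 4 * n, n, n, 0)
  else if m < 6 * n then (n, 6 * n - m, 6 * n - m, 0)
  else (7 * n - m, 0, 0, 0)

/-- First pentagon. -/
def orgB (n i k s : ℕ) : Vt :=
  if s = 0 then (-(k + 1), -(i + 1), i, k)
  else if s = 1 then
    (if k + 1 < n then (-(k + 1), -(i + 1), i, k + 1) else (-(k + 1), -(i + 1), i + 1, 0))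
  else if s = 2 then (-(k + 1), -i, i, 0)
  else if s = 3 then (-k, -i, i, 0)
  else (-k, -(i + 1), i, k)

/-- Last pentagon. -/
def orgA (n i k s : ℕ) : Vt :=
  if s = 0 then (n - 1 - k, i, i, k)
  else if s = 1 then (n - k, i, i, k)
  else if s = 2 then (n - k, i + 1, i + 1, 0)
  else if s = 3 then (n - 1 - k, i + 1, i + 1, 0)
  else (if k + 1 < n then (n - 1 - k, i, i, k + 1) else (n - 1 - k, i, i + 1, 0))

/-- The level path, first coordinate. -/
def lpa (i k T : ℕ) : ℤ := ((T - (k + 2 * i + 3) : ℕ) : ℤ) - ((k + 2 - T : ℕ) : ℤ)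

/-- The level path, second coordinate. -/
def lpb (i k T : ℕ) : ℤ :=
  -(i + 1) + ((T - (k + 2) : ℕ) : ℤ) - ((T - (k + 2 * i + 3) : ℕ) : ℤ)

/-- Squares. -/
def orgS (n i k T s : ℕ) : Vt :=
  if s = 0 then (lpa i k T, lpb i k T, i, k)
  else if s = 1 then (lpa i k (T + 1), lpb i k (T + 1), i, k)
  else if s = 2 then
    (if k + 1 < n then (lpa i k (T + 1), lpb i k (T + 1), i, k + 1)
      else (lpa i k (T + 1), lpb i k (T + 1), i + 1, 0))
  else
    (if k + 1 < n then (lpa i k T, lpb i k T, i, k + 1) else (lpa i k T, lpb i k T, i + 1, 0))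

/-- Faces. -/
def orgI (n i k T s : ℕ) : Vt :=
  if T = 0 then orgB n i k s
  else if T = n + 2 * i + 2 then orgA n i k s
  else orgS n i k T s

/-- All sides. -/
def orgN (n : ℕ) (q : Code) : Vt :=
  if q.1 = n then orgO n q.2.2.2 else orgI n q.1 q.2.1 q.2.2.1 q.2.2.2

/-- The next side of the same polygon, in coordinates. -/
def nxt (n : ℕ) (q : Code) : Code :=
  if q.1 = n then (n, q.2.1, q.2.2.1, if q.2.2.2 + 1 < 8 * n then q.2.2.2 + 1 else 0)
  else if q.2.2.1 = 0 ∨ q.2.2.1 = n + 2 * q.1 + 2 then
    (q.1, q.2.1, q.2.2.1, if q.2.2.2 + 1 < 5 then q.2.2.2 + 1 else 0)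
  else (q.1, q.2.1, q.2.2.1, if q.2.2.2 + 1 < 4 then q.2.2.2 + 1 else 0)

theorem orgN_out (n k T s : ℕ) : orgN n (n, k, T, s) = orgO n s := by
  simp [orgN]

theorem orgN_in (n i k T s : ℕ) (h : i ≠ n) : orgN n (i, k, T, s) = orgI n i k T s := by
  simp [orgN, h]

theorem orgI_zero (n i k s : ℕ) : orgI n i k 0 s = orgB n i k s := by
  simp [orgI]

theorem orgI_last (n i k T s : ℕ) (h : T = n + 2 * i + 2) : orgI n i k T s = orgA n i k s := by
  subst h; simp [orgI]

theorem orgI_sq (n i k T s : ℕ) (h : T ≠ 0) (h2 : T ≠ n + 2 * i + 2) :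
    orgI n i k T s = orgS n i k T s := by
  simp [orgI, h, h2]

theorem orgI_side0 (n i k T : ℕ) (h : T ≠ 0) (hk : k < n) :
    orgI n i k T 0 = (lpa i k T, lpb i k T, i, k) := by
  by_cases h2 : T = n + 2 * i + 2
  · rw [orgI_last _ _ _ _ _ h2]
    unfold orgA
    rw [if_pos rfl]
    unfold lpa lpb
    exact vt_ext (by omega) (by omega) rfl rfl
  · rw [orgI_sq _ _ _ _ _ h h2]
    unfold orgS
    rw [if_pos rfl]

theorem orgO_top (n : ℕ) (hn : 1 ≤ n) : orgO n (8 * n) = orgO n 0 := by
  unfold orgO
  repeat' split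
  all_goals first
    | omega
    | exact vt_ext (by omega) (by omega) (by omega) (by omega)

theorem org_tabO (n : ℕ) (hn : 1 ≤ n) (m : ℕ) (hm : m < 8 * n) :
    orgN n (tabO n m) = orgO n (m + 1) := by
  unfold tabO
  repeat' split
  all_goals
    rw [orgN_in _ _ _ _ _ (by omega)]
    first
      | rw [orgI_side0 _ _ _ _ (by omega) (by omega)]; unfold lpa lpb
      | rw [orgI_zero]; unfold orgB
      | rw [orgI_last _ _ _ _ _ (by omega)]; unfold orgA
      | rw [orgI_sq _ _ _ _ _ (by omega) (by omega)]; unfold orgS lpa lpb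
    unfold orgO
    try simp (decide := true) only [if_true, if_false]
    repeat' split
    all_goals first
      | (exfalso; omega)
      | exact vt_ext (by omega) (by omega) (by omega) (by omega)

theorem org_tabB (n : ℕ) (hn : 1 ≤ n) (i k s : ℕ) (hi : i < n) (hk : k < n) (hs : s < 5) :
    orgN n (tabB n i k s) = orgB n i k (if s + 1 < 5 then s + 1 else 0) := by
  unfold tabB
  interval_cases s
  all_goals
    simp (decide := true) only [if_true, if_false]
    repeat' split
  all_goals
    unfold orgB
    first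
      | rw [orgN_out]; unfold orgO
      | rw [orgN_in _ _ _ _ _ (by omega)]
        first
          | rw [orgI_side0 _ _ _ _ (by omega) (by omega)]; unfold lpa lpb
          | rw [orgI_zero]; unfold orgB
          | rw [orgI_last _ _ _ _ _ (by omega)]; unfold orgA
          | rw [orgI_sq _ _ _ _ _ (by omega) (by omega)]; unfold orgS lpa lpb
    try simp (decide := true) only [if_true, if_false]
    repeat' split
    all_goals first
      | (exfalso; omega)
      | exact vt_ext (by omega) (by omega) (by omega) (by omega)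

theorem org_tabA (n : ℕ) (hn : 1 ≤ n) (i k s : ℕ) (hi : i < n) (hk : k < n) (hs : s < 5) :
    orgN n (tabA n i k s) = orgA n i k (if s + 1 < 5 then s + 1 else 0) := by
  unfold tabA
  interval_cases s
  all_goals
    simp (decide := true) only [if_true, if_false]
    repeat' split
  all_goals
    unfold orgA
    first
      | rw [orgN_out]; unfold orgO
      | rw [orgN_in _ _ _ _ _ (by omega)]
        first
          | rw [orgI_side0 _ _ _ _ (by omega) (by omega)]; unfold lpa lpb
          | rw [orgI_zero]; unfold orgB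
          | rw [orgI_last _ _ _ _ _ (by omega)]; unfold orgA
          | rw [orgI_sq _ _ _ _ _ (by omega) (by omega)]; unfold orgS lpa lpb
    try simp (decide := true) only [if_true, if_false]
    repeat' split
    all_goals first
      | (exfalso; omega)
      | exact vt_ext (by omega) (by omega) (by omega) (by omega)

theorem org_tabS (n : ℕ) (hn : 1 ≤ n) (i k T s : ℕ) (hi : i < n) (hk : k < n) (hT : 1 ≤ T)
    (hT2 : T < n + 2 * i + 2) (hs : s < 4) :
    orgN n (tabS n i k T s) = orgS n i k T (if s + 1 < 4 then s + 1 else 0) := by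
  unfold tabS
  interval_cases s
  all_goals
    simp (decide := true) only [if_true, if_false]
    repeat' split
  all_goals
    unfold orgS
    first
      | rw [orgN_out]; unfold orgO lpa lpb
      | rw [orgN_in _ _ _ _ _ (by omega)]
        first
          | rw [orgI_side0 _ _ _ _ (by omega) (by omega)]; unfold lpa lpb
          | rw [orgI_zero]; unfold orgB lpa lpb
          | rw [orgI_last _ _ _ _ _ (by omega)]; unfold orgA lpa lpb
          | rw [orgI_sq _ _ _ _ _ (by omega) (by omega)]; unfold orgS lpa lpb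
    try simp (decide := true) only [if_true, if_false]
    repeat' split
    all_goals first
      | (exfalso; omega)
      | exact vt_ext (by omega) (by omega) (by omega) (by omega)

theorem org_tab (n : ℕ) (hn : 1 ≤ n) (q : Code) (hq : Valid n q) :
    orgN n (tab n q) = orgN n (nxt n q) := by
  obtain ⟨i, k, T, s⟩ := q
  simp only [Valid] at hq
  by_cases h1 : i = n
  · have hk : k = 0 := by omega
    have hT : T = 0 := by omega
    have hs : s < 8 * n := by omega
    subst h1 hk hT
    rw [show tab i (i, 0, 0, s) = tabO i s from by simp [tab], org_tabO i hn s hs]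
    by_cases h2 : s + 1 < 8 * i
    · rw [show nxt i (i, 0, 0, s) = (i, 0, 0, s + 1) from by simp [nxt, h2], orgN_out]
    · rw [show nxt i (i, 0, 0, s) = (i, 0, 0, 0) from by simp [nxt, h2], orgN_out,
        show s + 1 = 8 * i by omega, orgO_top i hn]
  · by_cases h2 : T = 0
    · subst h2
      rw [show tab n (i, k, 0, s) = tabB n i k s from by simp [tab, h1],
        org_tabB n hn i k s (by omega) (by omega) (by omega),
        show nxt n (i, k, 0, s) = (i, k, 0, if s + 1 < 5 then s + 1 else 0) from by
          simp [nxt, h1], orgN_in _ _ _ _ _ h1, orgI_zero]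
    · by_cases h3 : T = n + 2 * i + 2
      · subst h3
        rw [show tab n (i, k, n + 2 * i + 2, s) = tabA n i k s from by simp [tab, h1],
          org_tabA n hn i k s (by omega) (by omega) (by omega),
          show nxt n (i, k, n + 2 * i + 2, s) = (i, k, n + 2 * i + 2,
            if s + 1 < 5 then s + 1 else 0) from by simp [nxt, h1],
          orgN_in _ _ _ _ _ h1, orgI_last _ _ _ _ _ rfl]
      · rw [show tab n (i, k, T, s) = tabS n i k T s from by simp [tab, h1, h2, h3],
          org_tabS n hn i k T s (by omega) (by omega) (by omega) (by omega) (by omega),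
          show nxt n (i, k, T, s) = (i, k, T, if s + 1 < 4 then s + 1 else 0) from by
            simp [nxt, h1, h2, h3], orgN_in _ _ _ _ _ h1, orgI_sq _ _ _ _ _ h2 h3]

end Pool.Agent.W2helper47.VK
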