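import Mathlib
import Pool.Agent.W2helper47.VK.TabLab
import Pool.Agent.W2helper47.VK.TabOrg
import Pool.Agent.W2helper47.VK.TabH
import Pool.Agent.W2helper47.VK.FromA

/-!
# The explicit diagram
-/

open BigOperators

namespace Pool.Agent.W2helper47.VK

/-- The word around the face `(i,k,T)`. -/
def relN (n i k T : ℕ) : Word :=
  if T = 0 then FreeGroup.invRev rxy
  else if T ≤ k + 1 then rxz
  else if T ≤ k + 2 * i + 2 then ryz
  else if T ≤ n + 2 * i + 1 then rxz
  else rxy

/-- The word around a face. -/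
def relF (n : ℕ) (f : FF n) : Word := relN n f.1 f.2.1 f.2.2

/-- Sides of the explicit diagram. -/
abbrev SD (n : ℕ) : Type := Side (bw n) (relF n)

/-- Coordinates of a side. -/
def code (n : ℕ) : SD n → Code
  | ⟨none, s⟩ => (n, 0, 0, s)
  | ⟨some f, s⟩ => (f.1, f.2.1, f.2.2, s)

theorem outer_word (n : ℕ) : FreeGroup.invRev (bw n) =
    List.replicate n (Gen.y, false) ++ (List.replicate n (Gen.x, true) ++
    (List.replicate (2 * n) (Gen.y, true) ++ (List.replicate n (Gen.x, true) ++
    (List.replicate n (Gen.y, false) ++ List.replicate (2 * n) (Gen.x, false))))) := by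
  simp [FreeGroup.invRev, bw]

theorem outer_length (n : ℕ) : (FreeGroup.invRev (bw n)).length = 8 * n := by
  rw [outer_word]
  simp
  ring

theorem rel_length (n i k T : ℕ) (hk : k < n) (hT : T ≤ n + 2 * i + 2) :
    (relN n i k T).length = if T = 0 ∨ T = n + 2 * i + 2 then 5 else 4 := by
  unfold relN
  have h1 : (FreeGroup.invRev rxy).length = 5 := by decide
  have h2 : rxy.length = 5 := by decide
  have h3 : rxz.length = 4 := by decide
  have h4 : ryz.length = 4 := by decide
  repeat' split
  all_goals first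
    | omega
    | simp_all

theorem outer_get (n m : ℕ) (hm : m < (FreeGroup.invRev (bw n)).length) :
    (FreeGroup.invRev (bw n)).get ⟨m, hm⟩ = labO n m := by
  have h8 := hm
  rw [outer_length] at h8
  simp only [List.get_eq_getElem, outer_word, List.getElem_append, List.getElem_replicate,
    List.length_replicate]
  unfold labO
  repeat' split
  all_goals first
    | rfl
    | omega

theorem rel_get_aux (w : Word) (lb : ℕ → Letter) (h : ∀ (s : ℕ) (hs : s < w.length),
    w.get ⟨s, hs⟩ = lb s) (w' : Word) (hw : w' = w) (s : ℕ) (hs : s < w'.length) :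
    w'.get ⟨s, hs⟩ = lb s := by
  subst hw
  exact h s hs

theorem get_rxy (s : ℕ) (hs : s < rxy.length) : rxy.get ⟨s, hs⟩ = labA s := by
  have : s < 5 := hs
  interval_cases s <;> rfl

theorem get_rxy' (s : ℕ) (hs : s < (FreeGroup.invRev rxy).length) :
    (FreeGroup.invRev rxy).get ⟨s, hs⟩ = labB s := by
  have : s < 5 := hs
  interval_cases s <;> rfl

theorem get_rxz (s : ℕ) (hs : s < rxz.length) : rxz.get ⟨s, hs⟩ = labX s := by
  have : s < 4 := hs
  interval_cases s <;> rfl

theorem get_ryz (s : ℕ) (hs : s < ryz.length) : ryz.get ⟨s, hs⟩ = labY s := by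
  have : s < 4 := hs
  interval_cases s <;> rfl

theorem rel_get (n i k T s : ℕ) (hs : s < (relN n i k T).length) :
    (relN n i k T).get ⟨s, hs⟩ = labI n i k T s := by
  unfold labI
  split
  · next h => exact rel_get_aux _ _ get_rxy' _ (by simp [relN, h]) s hs
  · next h =>
    split
    · next h2 => exact rel_get_aux _ _ get_rxz _ (by simp [relN, h, h2]) s hs
    · next h2 =>
      split
      · next h3 => exact rel_get_aux _ _ get_ryz _ (by simp [relN, h, h2, h3]) s hs
      · next h3 =>
        split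
        · next h4 => exact rel_get_aux _ _ get_rxz _ (by simp [relN, h, h2, h3, h4]) s hs
        · next h4 => exact rel_get_aux _ _ get_rxy _ (by simp [relN, h, h2, h3, h4]) s hs

theorem lab_code (n : ℕ) (d : SD n) : lab (bw n) (relF n) d = labN n (code n d) := by
  obtain ⟨o, s⟩ := d
  cases o with
  | none =>
    change (FreeGroup.invRev (bw n)).get s = labN n (n, 0, 0, s)
    rw [labN_out]
    exact outer_get n s s.2
  | some f =>
    change (relN n f.1 f.2.1 f.2.2).get s = labN n (f.1, f.2.1, f.2.2, s)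
    rw [labN_in _ _ _ _ _ (by have := f.1.2; omega)]
    exact rel_get n _ _ _ s s.2

theorem code_valid (n : ℕ) (d : SD n) : Valid n (code n d) := by
  obtain ⟨o, s⟩ := d
  cases o with
  | none =>
    left
    refine ⟨rfl, rfl, rfl, ?_⟩
    have h : (s : ℕ) < (FreeGroup.invRev (bw n)).length := s.2
    rw [outer_length] at h
    exact h
  | some f =>
    right
    have h : (s : ℕ) < (relN n f.1 f.2.1 f.2.2).length := s.2
    have h1 := f.1.2
    have h2 := f.2.1.2
    have h3 := f.2.2.2
    rw [rel_length n _ _ _ h2 (by omega)] at h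
    refine ⟨h1, h2, ?_, ?_⟩
    · change (f.2.2 : ℕ) ≤ n + 2 * (f.1 : ℕ) + 2
      omega
    · change (s : ℕ) < 4 ∨ ((s : ℕ) = 4 ∧ ((f.2.2 : ℕ) = 0 ∨ (f.2.2 : ℕ) = n + 2 * (f.1 : ℕ) + 2))
      split at h <;> omega

theorem code_inj (n : ℕ) : Function.Injective (code n) := by
  rintro ⟨o, s⟩ ⟨o', s'⟩ h
  cases o with
  | none =>
    cases o' with
    | none =>
      simp only [code, Prod.mk.injEq, true_and] at h
      have : s = s' := Fin.ext h
      subst this
      rfl
    | some f' =>
      simp only [code, Prod.mk.injEq] at h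
      have := f'.1.2
      omega
  | some f =>
    cases o' with
    | none =>
      simp only [code, Prod.mk.injEq] at h
      have := f.1.2
      omega
    | some f' =>
      obtain ⟨i, k, T⟩ := f
      obtain ⟨i', k', T'⟩ := f'
      simp only [code, Prod.mk.injEq] at h
      obtain ⟨h1, h2, h3, h4⟩ := h
      have e1 : i = i' := Fin.ext h1
      subst e1
      have e2 : k = k' := Fin.ext h2
      subst e2
      have e3 : T = T' := Fin.ext h3
      subst e3
      have e4 : s = s' := Fin.ext h4
      subst e4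
      rfl

theorem code_surj (n : ℕ) (q : Code) (hq : Valid n q) : ∃ d : SD n, code n d = q := by
  obtain ⟨i, k, T, s⟩ := q
  rcases hq with ⟨h1, h2, h3, h4⟩ | ⟨h1, h2, h3, h4⟩
  · dsimp only at h1 h2 h3 h4
    subst h1 h2 h3
    refine ⟨⟨none, ⟨s, ?_⟩⟩, rfl⟩
    change s < (FreeGroup.invRev (bw i)).length
    rw [outer_length]
    exact h4
  · dsimp only at h1 h2 h3 h4
    refine ⟨⟨some ⟨⟨i, h1⟩, ⟨k, h2⟩, ⟨T, by dsimp only; omega⟩⟩, ⟨s, ?_⟩⟩, rfl⟩
    change s < (relN n i k T).length
    rw [rel_length n i k T h2 h3]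
    split <;> omega

theorem finRotate_val (m : ℕ) (i : Fin m) :
    ((finRotate m i : Fin m) : ℕ) = if (i : ℕ) + 1 < m then (i : ℕ) + 1 else 0 := by
  cases m with
  | zero => exact i.elim0
  | succ m =>
    rw [coe_finRotate]
    have := i.2
    by_cases h : i = Fin.last m
    · subst h
      simp
    · rw [if_neg h]
      have h2 : (i : ℕ) ≠ m := fun e => h (Fin.ext e)
      rw [if_pos (by omega)]

theorem nxt_face (n i k T t : ℕ) (h : i ≠ n) : nxt n (i, k, T, t) =
    (i, k, T, if t + 1 < (if T = 0 ∨ T = n + 2 * i + 2 then 5 else 4) then t + 1 else 0) := by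
  by_cases h5 : T = 0 ∨ T = n + 2 * i + 2
  · simp [nxt, h, h5]
  · simp [nxt, h, h5]

theorem next_code (n : ℕ) (d : SD n) : code n (next (bw n) (relF n) d) = nxt n (code n d) := by
  obtain ⟨o, s⟩ := d
  cases o with
  | none =>
    change ((n, 0, 0, ((finRotate _ s : Fin _) : ℕ)) : Code) = nxt n (n, 0, 0, (s : ℕ))
    rw [finRotate_val]
    have h : (polyWord (bw n) (relF n) none).length = 8 * n := outer_length n
    generalize (s : ℕ) = t
    rw [h]
    simp [nxt]
  | some f =>
    change (((f.1 : ℕ), (f.2.1 : ℕ), (f.2.2 : ℕ), ((finRotate _ s : Fin _) : ℕ)) : Code)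
      = nxt n (f.1, f.2.1, f.2.2, (s : ℕ))
    rw [finRotate_val]
    have h1 := f.1.2
    have h2 := f.2.1.2
    have h3 := f.2.2.2
    have h : (polyWord (bw n) (relF n) (some f)).length =
        if (f.2.2 : ℕ) = 0 ∨ (f.2.2 : ℕ) = n + 2 * (f.1 : ℕ) + 2 then 5 else 4 :=
      rel_length n _ _ _ h2 (by omega)
    generalize (s : ℕ) = t
    rw [h]
    rw [nxt_face _ _ _ _ _ (by omega)]

/-- The gluing. -/
noncomputable def glueF (n : ℕ) (hn : 1 ≤ n) (d : SD n) : SD n :=
  (code_surj n _ (tab_valid n hn _ (code_valid n d))).choose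

theorem glueF_code (n : ℕ) (hn : 1 ≤ n) (d : SD n) :
    code n (glueF n hn d) = tab n (code n d) :=
  (code_surj n _ (tab_valid n hn _ (code_valid n d))).choose_spec

theorem glueF_glueF (n : ℕ) (hn : 1 ≤ n) (d : SD n) : glueF n hn (glueF n hn d) = d := by
  apply code_inj n
  rw [glueF_code, glueF_code, tab_tab n hn _ (code_valid n d)]

/-- The gluing as a permutation. -/
noncomputable def gl (n : ℕ) (hn : 1 ≤ n) : Equiv.Perm (SD n) :=
  Function.Involutive.toPerm (glueF n hn) (glueF_glueF n hn)

theorem gl_code (n : ℕ) (hn : 1 ≤ n) (d : SD n) : code n (gl n hn d) = tab n (code n d) :=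
  glueF_code n hn d

theorem relF_mem (n : ℕ) (f : FF n) : relF n f ∈ relators := by
  unfold relF relN relators
  simp only [Set.mem_insert_iff, Set.mem_singleton_iff]
  repeat' split
  all_goals simp

end Pool.Agent.W2helper47.VK
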