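import Mathlib
import Pool.Agent.W2helper47.VK.Ex

/-!
# The explicit diagram: connectedness, vertices, Euler characteristic
-/

open BigOperators

namespace Pool.Agent.W2helper47.VK

section conn

variable {n : ℕ} (hn : 1 ≤ n) (S : Set (SD n))
  (hS : ∀ d ∈ S, gl n hn d ∈ S ∧ next (bw n) (relF n) d ∈ S)

/-- A side with the given coordinates belongs to `S`. -/
def Has (S : Set (SD n)) (q : Code) : Prop := ∃ d ∈ S, code n d = q

theorem has_iff (S : Set (SD n)) (d : SD n) : Has S (code n d) ↔ d ∈ S := by
  constructor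
  · rintro ⟨e, he, h⟩
    rwa [← code_inj n h]
  · intro h
    exact ⟨d, h, rfl⟩

include hS

theorem has_tab (q : Code) (h : Has S q) : Has S (tab n q) := by
  obtain ⟨d, hd, rfl⟩ := h
  exact ⟨gl n hn d, (hS d hd).1, gl_code n hn d⟩

theorem has_nxt (q : Code) (h : Has S q) : Has S (nxt n q) := by
  obtain ⟨d, hd, rfl⟩ := h
  exact ⟨next (bw n) (relF n) d, (hS d hd).2, next_code n d⟩

/-- The length of a polygon, in coordinates. -/
def len (n i T : ℕ) : ℕ :=
  if i = n then 8 * n else if T = 0 ∨ T = n + 2 * i + 2 then 5 else 4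

omit hS in
theorem nxt_len (n i k T s : ℕ) :
    nxt n (i, k, T, s) = (i, k, T, if s + 1 < len n i T then s + 1 else 0) := by
  unfold nxt len
  dsimp only
  by_cases h : i = n
  · subst h
    simp
  · by_cases h2 : T = 0 ∨ T = n + 2 * i + 2
    · simp [h, h2]
    · simp [h, h2]

theorem has_up (i k T s t : ℕ) (h : Has S (i, k, T, s)) (hst : s ≤ t) (ht : t < len n i T) :
    Has S (i, k, T, t) := by
  induction t, hst using Nat.le_induction with
  | base => exact h
  | succ t hst ih =>
    have h1 := has_nxt hn S hS _ (ih (by omega))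
    rw [nxt_len, if_pos ht] at h1
    exact h1

theorem has_all (i k T s t : ℕ) (h : Has S (i, k, T, s)) (hs : s < len n i T)
    (ht : t < len n i T) : Has S (i, k, T, t) := by
  have h1 := has_up hn S hS i k T s (len n i T - 1) h (by omega) (by omega)
  have h2 := has_nxt hn S hS _ h1
  rw [nxt_len, if_neg (by omega)] at h2
  exact has_up hn S hS i k T 0 t h2 (by omega) ht

/-- All sides of a polygon. -/
def Full (S : Set (SD n)) (i k T : ℕ) : Prop := ∀ s, s < len n i T → Has S (i, k, T, s)

theorem full_of (i k T s : ℕ) (h : Has S (i, k, T, s)) (hs : s < len n i T) : Full S i k T :=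
  fun t ht => has_all hn S hS i k T s t h hs ht

theorem full_adj (i k T s i' k' T' s' : ℕ) (h : Full S i k T) (hs : s < len n i T)
    (hs' : s' < len n i' T') (ht : tab n (i, k, T, s) = (i', k', T', s')) : Full S i' k' T' := by
  have h1 := has_tab hn S hS _ (h s hs)
  rw [ht] at h1
  exact full_of hn S hS i' k' T' s' h1 hs'

theorem down (i k T : ℕ) (hi : i < n) (hk : k < n) (hT : T ≤ n + 2 * i + 1) :
    Full S i k (T + 1) ↔ Full S i k T := by
  have hne : i ≠ n := by omega
  have hl : ∀ U, 4 ≤ len n i U := by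
    intro U
    unfold len
    split
    · omega
    · split <;> omega
  -- the two sides glued together
  have key : ∃ s s', s < len n i (T + 1) ∧ s' < len n i T ∧
      tab n (i, k, T + 1, s) = (i, k, T, s') ∧ tab n (i, k, T, s') = (i, k, T + 1, s) := by
    by_cases h1 : T = 0
    · subst h1
      refine ⟨3, 0, by have := hl (0 + 1); omega, by have := hl 0; omega, ?_, ?_⟩
      · simp [tab, tabS, hne]
      · simp [tab, tabB, hne]
    · by_cases h2 : T = n + 2 * i + 1
      · subst h2
        refine ⟨4, 1, ?_, by have := hl (n + 2 * i + 1); omega, ?_, ?_⟩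
        · simp [len, hne]
        · simp [tab, tabA, hne]
        · simp [tab, tabS, hne]
      · refine ⟨3, 1, by have := hl (T + 1); omega, by have := hl T; omega, ?_, ?_⟩
        · have h3 : T + 1 ≠ n + 2 * i + 2 := by omega
          simp [tab, tabS, hne, h3, h1, h2]
        · have h3 : T ≠ n + 2 * i + 2 := by omega
          simp [tab, tabS, hne, h3, h1, h2]
  obtain ⟨s, s', hs, hs', ht, ht'⟩ := key
  exact ⟨fun h => full_adj hn S hS _ _ _ _ _ _ _ _ h hs hs' ht,
    fun h => full_adj hn S hS _ _ _ _ _ _ _ _ h hs' hs ht'⟩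

theorem strand (i k T : ℕ) (hi : i < n) (hk : k < n) (hT : T ≤ n + 2 * i + 2) :
    Full S i k T ↔ Full S i k 0 := by
  induction T with
  | zero => exact Iff.rfl
  | succ T ih =>
    rw [down hn S hS i k T hi hk (by omega)]
    exact ih (by omega)

theorem side_step (i k : ℕ) (hi : i < n) (hk : k + 1 < n) :
    Full S i k 0 ↔ Full S i (k + 1) 0 := by
  have hne : i ≠ n := by omega
  have hl : len n i 0 = 5 := by simp [len, hne]
  constructor
  · intro h
    refine full_adj hn S hS i k 0 1 i (k + 1) 0 3 h (by omega) (by omega) ?_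
    simp [tab, tabB, hne, hk]
  · intro h
    refine full_adj hn S hS i (k + 1) 0 3 i k 0 1 h (by omega) (by omega) ?_
    simp [tab, tabB, hne]

theorem side_all (i k : ℕ) (hi : i < n) (hk : k < n) :
    Full S i k 0 ↔ Full S i 0 0 := by
  induction k with
  | zero => exact Iff.rfl
  | succ k ih =>
    rw [← side_step hn S hS i k hi hk]
    exact ih (by omega)

theorem outer_step (i : ℕ) (hi : i < n) : Full S i (n - 1) 0 ↔ Full S n 0 0 := by
  have hne : i ≠ n := by omega
  have hl : len n i 0 = 5 := by simp [len, hne]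
  have hl2 : len n n 0 = 8 * n := by simp [len]
  constructor
  · intro h
    refine full_adj hn S hS i (n - 1) 0 1 n 0 0 i h (by omega) (by omega) ?_
    have : ¬ (n - 1 + 1 < n) := by omega
    simp [tab, tabB, hne, this]
  · intro h
    refine full_adj hn S hS n 0 0 i i (n - 1) 0 1 h (by omega) (by omega) ?_
    simp [tab, tabO, hi]

theorem face_iff (i k T : ℕ) (hi : i < n) (hk : k < n) (hT : T ≤ n + 2 * i + 2) :
    Full S i k T ↔ Full S n 0 0 := by
  rw [strand hn S hS i k T hi hk hT, side_all hn S hS i k hi hk,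
    ← side_all hn S hS i (n - 1) hi (by omega), outer_step hn S hS i hi]

omit hS in
theorem valid_len (i k T s : ℕ) (h : Valid n (i, k, T, s)) :
    s < len n i T ∧ ((i = n ∧ k = 0 ∧ T = 0) ∨ (i < n ∧ k < n ∧ T ≤ n + 2 * i + 2)) := by
  unfold Valid at h
  dsimp only at h
  unfold len
  rcases h with ⟨h1, h2, h3, h4⟩ | ⟨h1, h2, h3, h4⟩
  · subst h1
    exact ⟨by rw [if_pos rfl]; exact h4, Or.inl ⟨rfl, h2, h3⟩⟩
  · rw [if_neg (by omega)]
    refine ⟨?_, Or.inr ⟨h1, h2, h3⟩⟩
    split <;> omega

theorem conn_all (hne : S.Nonempty) : S = Set.univ := by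
  have hfull : Full S n 0 0 := by
    obtain ⟨d, hd⟩ := hne
    have hv := code_valid n d
    have hh : Has S (code n d) := ⟨d, hd, rfl⟩
    generalize code n d = q at hv hh
    obtain ⟨i, k, T, s⟩ := q
    obtain ⟨h1, h2⟩ := valid_len i k T s hv
    have h3 := full_of hn S hS i k T s hh h1
    rcases h2 with ⟨rfl, rfl, rfl⟩ | ⟨h4, h5, h6⟩
    · exact h3
    · exact (face_iff hn S hS i k T h4 h5 h6).mp h3
  ext d
  simp only [Set.mem_univ, iff_true]
  rw [← has_iff S d]
  have hv := code_valid n d
  generalize code n d = q at hv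
  obtain ⟨i, k, T, s⟩ := q
  obtain ⟨h1, h2⟩ := valid_len i k T s hv
  rcases h2 with ⟨rfl, rfl, rfl⟩ | ⟨h4, h5, h6⟩
  · exact hfull s h1
  · exact (face_iff hn S hS i k T h4 h5 h6).mpr hfull s h1

end conn

/-- The explicit gluing. -/
noncomputable def exG (n : ℕ) (hn : 1 ≤ n) : Gluing (bw n) where
  F := FF n
  finF := inferInstance
  rel := relF n
  rel_mem := relF_mem n
  glue := gl n hn
  glue_glue := glueF_glueF n hn
  lab_glue := by
    intro d
    rw [lab_code, lab_code, gl_code]
    exact lab_tab n hn _ (code_valid n d)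
  connected := fun S hne hS => conn_all hn S hS hne

end Pool.Agent.W2helper47.VK
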