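import Mathlib
import Pool.Agent.W2helper47.VK.Ex2

/-!
# The explicit diagram: vertices and the Euler characteristic
-/

open BigOperators

namespace Pool.Agent.W2helper47.VK

/-- The vertex at the beginning of a side. -/
def org (n : ℕ) (d : SD n) : Vt := orgN n (code n d)

theorem org_rot (n : ℕ) (hn : 1 ≤ n) (d : SD n) :
    org n ((exG n hn).rot d) = org n d := by
  have h : (exG n hn).rot d = next (bw n) (relF n) (gl n hn d) := rfl
  unfold org
  rw [h, next_code, ← org_tab n hn _ (code_valid n _), gl_code,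
    tab_tab n hn _ (code_valid n d)]

theorem org_pow (n : ℕ) (hn : 1 ≤ n) (j : ℕ) (d : SD n) :
    org n (((exG n hn).rot ^ j) d) = org n d := by
  induction j with
  | zero => rfl
  | succ j ih =>
    rw [pow_succ', Equiv.Perm.mul_apply, org_rot, ih]

theorem org_same (n : ℕ) (hn : 1 ≤ n) (d e : SD n)
    (h : (exG n hn).rot.SameCycle d e) : org n d = org n e := by
  obtain ⟨i, hi⟩ := h
  cases i with
  | ofNat j =>
    rw [← hi]
    simp only [Int.ofNat_eq_natCast, zpow_natCast]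
    exact (org_pow n hn j d).symm
  | negSucc j =>
    rw [zpow_negSucc, Equiv.Perm.inv_eq_iff_eq] at hi
    rw [hi]
    exact org_pow n hn (j + 1) e

/-- Representatives of the vertices. -/
abbrev VI (n : ℕ) : Type :=
  (Σ i : Fin n, Fin n × Fin (n + 2 * (i : ℕ) + 2)) ⊕ ((Fin n × Fin n) ⊕ ((Fin n × Fin n) ⊕
    (Fin n ⊕ (Fin n ⊕ Fin (2 * n + 1)))))

/-- Their sides. -/
def cd (n : ℕ) : VI n → Code
  | .inl ⟨i, k, t⟩ => (i, k, t + 1, 0)
  | .inr (.inl (i, k)) => (i, k, n + 2 * (i : ℕ) + 2, 1)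
  | .inr (.inr (.inl (i, k))) => (i, k, 0, 2)
  | .inr (.inr (.inr (.inl k))) => (n - 1, k, 3 * n, 2)
  | .inr (.inr (.inr (.inr (.inl j)))) => (n, 0, 0, n + j)
  | .inr (.inr (.inr (.inr (.inr j)))) => (n, 0, 0, 2 * n + j)

/-- Their coordinates. -/
def og (n : ℕ) : VI n → Vt
  | .inl ⟨i, k, t⟩ => (lpa i k (t + 1), lpb i k (t + 1), i, k)
  | .inr (.inl (i, k)) => ((n : ℤ) - (k : ℕ), (i : ℕ), i, k)
  | .inr (.inr (.inl (i, k))) => (-((k : ℕ) + 1), -(i : ℕ), i, 0)
  | .inr (.inr (.inr (.inl k))) => ((n : ℤ) - (k : ℕ), n, n, 0)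
  | .inr (.inr (.inr (.inr (.inl j)))) => (((j : ℕ) : ℤ) - n, -n, n, 0)
  | .inr (.inr (.inr (.inr (.inr j)))) => (0, ((j : ℕ) : ℤ) - n, n, 0)

theorem cd_valid (n : ℕ) (hn : 1 ≤ n) (x : VI n) : Valid n (cd n x) := by
  rcases x with ⟨i, k, t⟩ | ⟨i, k⟩ | ⟨i, k⟩ | k | j | j
  · have h1 := i.2
    have h2 := k.2
    have h3 := t.2
    right
    refine ⟨h1, h2, ?_, ?_⟩
    · dsimp only [cd]; omega
    · dsimp only [cd]; omega
  · have h1 := i.2
    have h2 := k.2
    right
    refine ⟨h1, h2, ?_, ?_⟩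
    · dsimp only [cd]; omega
    · dsimp only [cd]; omega
  · have h1 := i.2
    have h2 := k.2
    right
    refine ⟨h1, h2, ?_, ?_⟩
    · dsimp only [cd]; omega
    · dsimp only [cd]; omega
  · have h2 := k.2
    right
    refine ⟨?_, h2, ?_, ?_⟩
    · dsimp only [cd]; omega
    · dsimp only [cd]; omega
    · dsimp only [cd]; omega
  · have h2 := j.2
    left
    refine ⟨rfl, rfl, rfl, ?_⟩
    dsimp only [cd]; omega
  · have h2 := j.2
    left
    refine ⟨rfl, rfl, rfl, ?_⟩
    dsimp only [cd]; omega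

theorem cd_org (n : ℕ) (hn : 1 ≤ n) (x : VI n) : orgN n (cd n x) = og n x := by
  rcases x with ⟨i, k, t⟩ | ⟨i, k⟩ | ⟨i, k⟩ | k | j | j
  · have h1 := i.2
    have h2 := k.2
    have h3 := t.2
    dsimp only [cd, og]
    rw [orgN_in _ _ _ _ _ (by omega), orgI_side0 _ _ _ _ (by omega) h2]
  · have h1 := i.2
    have h2 := k.2
    dsimp only [cd, og]
    rw [orgN_in _ _ _ _ _ (by omega), orgI_last _ _ _ _ _ rfl]
    simp [orgA]
  · have h1 := i.2
    have h2 := k.2
    dsimp only [cd, og]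
    rw [orgN_in _ _ _ _ _ (by omega), orgI_zero]
    simp [orgB]
  · have h2 := k.2
    dsimp only [cd, og]
    rw [orgN_in _ _ _ _ _ (by omega), orgI_last _ _ _ _ _ (by omega)]
    unfold orgA
    rw [if_neg (by omega), if_neg (by omega), if_pos rfl]
    exact vt_ext rfl (by omega) (by omega) rfl
  · have h2 := j.2
    dsimp only [cd, og]
    rw [orgN_out]
    unfold orgO
    rw [if_neg (by omega), if_pos (by omega)]
    exact vt_ext (by omega) rfl rfl rfl
  · have h2 := j.2
    dsimp only [cd, og]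
    rw [orgN_out]
    unfold orgO
    rw [if_neg (by omega), if_neg (by omega)]
    by_cases h : (j : ℕ) = 2 * n
    · rw [if_neg (by omega), if_pos (by omega)]
      exact vt_ext (by omega) (by omega) rfl rfl
    · rw [if_pos (by omega)]
      exact vt_ext rfl (by omega) rfl rfl

theorem og_inj (n : ℕ) (hn : 1 ≤ n) : Function.Injective (og n) := by
  intro x y hxy
  rcases x with ⟨i, k, t⟩ | ⟨i, k⟩ | ⟨i, k⟩ | k | j | j <;>
  rcases y with ⟨i', k', t'⟩ | ⟨i', k'⟩ | ⟨i', k'⟩ | k' | j' | j' <;>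
  simp only [og, lpa, lpb, Prod.mk.injEq] at hxy
  · obtain ⟨h1, h2, h3, h4⟩ := hxy
    have e1 : i = i' := Fin.ext h3
    subst e1
    have e2 : k = k' := Fin.ext h4
    subst e2
    have e3 : t = t' := Fin.ext (by omega)
    subst e3
    rfl
  all_goals first
    | (exfalso; omega)
    | (obtain ⟨h1, h2, h3, h4⟩ := hxy
       have e1 : i = i' := Fin.ext (by omega)
       have e2 : k = k' := Fin.ext (by omega)
       subst e1 e2
       rfl)
    | (obtain ⟨h1, h2, h3, h4⟩ := hxy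
       have e2 : k = k' := Fin.ext (by omega)
       subst e2
       rfl)
    | (obtain ⟨h1, h2, h3, h4⟩ := hxy
       have e2 : j = j' := Fin.ext (by omega)
       subst e2
       rfl)

end Pool.Agent.W2helper47.VK
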