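import Mathlib
import Pool.Agent.W2helper47.VK.Ex3
import Pool.Agent.W2helper89.VK.PieceA
import Pool.Agent.W2helper89.VK.PieceE

/-!
# The explicit diagram: the Euler characteristic, and `Explicit`
-/

open BigOperators

namespace Pool.Agent.W2helper47.VK

theorem numV_ge (n : ℕ) (hn : 1 ≤ n) : Fintype.card (VI n) ≤ (exG n hn).numV := by
  classical
  have hex : ∀ x : VI n, ∃ d : SD n, code n d = cd n x :=
    fun x => code_surj n _ (cd_valid n hn x)
  choose sd hsd using hex
  let f : VI n → Quotient (Equiv.Perm.SameCycle.setoid (exG n hn).rot) :=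
    fun x => Quotient.mk _ (sd x)
  have hf : Function.Injective f := by
    intro x y hxy
    have h1 : (exG n hn).rot.SameCycle (sd x) (sd y) := Quotient.exact hxy
    have h2 := org_same n hn _ _ h1
    unfold org at h2
    rw [hsd, hsd, cd_org n hn, cd_org n hn] at h2
    exact og_inj n hn h2
  have h3 := Nat.card_le_card_of_injective f hf
  rw [Nat.card_eq_fintype_card] at h3
  exact h3

theorem sum_fin_lin (n a b : ℕ) : 2 * ∑ i : Fin n, (a + 2 * b * (i : ℕ)) + 2 * b * n =
    2 * a * n + 2 * b * n * n := by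
  rw [Fin.sum_univ_eq_sum_range (fun i => a + 2 * b * i)]
  induction n with
  | zero => simp
  | succ n ih =>
    rw [Finset.sum_range_succ]
    nlinarith [ih]

theorem card_VI (n : ℕ) : Fintype.card (VI n) = 2 * n ^ 3 + 3 * n ^ 2 + 4 * n + 1 := by
  simp only [Fintype.card_sum, Fintype.card_sigma, Fintype.card_prod, Fintype.card_fin]
  have h := sum_fin_lin n (n * n + 2 * n) n
  have h2 : ∑ i : Fin n, n * (n + 2 * (i : ℕ) + 2) = ∑ i : Fin n, (n * n + 2 * n + 2 * n * (i : ℕ)) :=
    Finset.sum_congr rfl fun i _ => by ring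
  rw [h2]
  nlinarith [h]

theorem sum_len (n i k : ℕ) (hk : k < n) :
    ∑ T : Fin (n + 2 * i + 3), (relN n i k T).length = 4 * n + 8 * i + 14 := by
  have h : ∀ T ∈ Finset.range (n + 2 * i + 3), (relN n i k T).length =
      if T = 0 ∨ T = n + 2 * i + 2 then 5 else 4 := by
    intro T hT
    rw [Finset.mem_range] at hT
    exact rel_length n i k T hk (by omega)
  rw [Fin.sum_univ_eq_sum_range (fun T => (relN n i k T).length), Finset.sum_congr rfl h,
    Finset.sum_range_succ, Finset.sum_range_succ']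
  have h2 : ∑ T ∈ Finset.range (n + 2 * i + 1),
      (if T + 1 = 0 ∨ T + 1 = n + 2 * i + 2 then 5 else 4) = 4 * (n + 2 * i + 1) := by
    rw [Finset.sum_congr rfl (g := fun _ => 4)]
    · simp
      ring
    · intro T hT
      rw [Finset.mem_range] at hT
      rw [if_neg (by omega)]
  rw [h2]
  simp
  ring

theorem card_SD (n : ℕ) : Fintype.card (SD n) = 8 * n ^ 3 + 10 * n ^ 2 + 8 * n := by
  rw [Fintype.card_sigma, Fintype.sum_option, Fintype.sum_sigma]
  simp only [Fintype.card_fin, Fintype.sum_prod_type]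
  have h0 : (polyWord (bw n) (relF n) none).length = 8 * n := outer_length n
  have h1 : ∀ (i k : Fin n), ∑ T : Fin (n + 2 * (i : ℕ) + 3),
      (polyWord (bw n) (relF n) (some ⟨i, (k, T)⟩)).length = 4 * n + 14 + 2 * 4 * (i : ℕ) := by
    intro i k
    have := sum_len n i k k.2
    rw [show 4 * n + 14 + 2 * 4 * (i : ℕ) = 4 * n + 8 * i + 14 by ring, ← this]
    rfl
  rw [h0]
  simp only [h1]
  simp only [Finset.sum_const, Finset.card_univ, Fintype.card_fin, smul_eq_mul]
  rw [← Finset.mul_sum]
  have h := sum_fin_lin n (4 * n + 14) 4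
  generalize (∑ i : Fin n, (4 * n + 14 + 2 * 4 * (i : ℕ))) = s at h ⊢
  have h2 : s + 4 * n = (4 * n + 14) * n + 4 * n * n := by nlinarith [h]
  have h3 : s = 8 * (n * n) + 10 * n := by nlinarith [h2]
  rw [h3]
  ring

/-- The explicit diagram. -/
noncomputable def exD (n : ℕ) (hn : 1 ≤ n) : Diagram (bw n) where
  toGluing := exG n hn
  euler := by
    have hne : bw n ≠ [] := by
      unfold bw
      cases n with
      | zero => omega
      | succ n => simp
    have h1 := eulerLe_of_A PieceA_proof (bw n) (exG n hn) hne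
    have h2 := numV_ge n hn
    rw [card_VI] at h2
    have h3 : Fintype.card (exG n hn).F = 2 * n ^ 3 + 2 * n ^ 2 := PE.card_FF n
    have h4 : Fintype.card (Side (bw n) (exG n hn).rel) = 8 * n ^ 3 + 10 * n ^ 2 + 8 * n :=
      card_SD n
    rw [h3, h4] at h1 ⊢
    omega

theorem explicit_proof : Explicit := by
  intro n hn
  refine ⟨exD n (by omega), Equiv.refl _, ?_⟩
  intro d
  have h1 : ∀ e : SD n, ext (fun f => hF n f) e.1 = hN n (code n e) := by
    rintro ⟨o, s⟩
    cases o with
    | none =>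
      change 0 = hN n (n, 0, 0, (s : ℕ))
      rw [hN_out]
    | some f =>
      change hh n f.1 f.2.1 f.2.2 = hN n (f.1, f.2.1, f.2.2, (s : ℕ))
      rw [hN_in _ _ _ _ _ (by have := f.1.2; omega)]
  have h2 := h_tab n (by omega) _ (code_valid n d)
  rw [← gl_code n (by omega) d, ← h1, ← h1] at h2
  exact h2

end Pool.Agent.W2helper47.VK
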